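import Mathlib
import Pool.Agent.H93.RecCor

set_option autoImplicit false

namespace Pool.Agent.Results.MP_3dc43d_an.Separable

open Pool.Agent.H93 RecDefs Topology

theorem result :
    ∀ (𝕂 : Type) [RCLike 𝕂] (X : Type) [NormedAddCommGroup X] [NormedSpace 𝕂 X]
      [CompleteSpace X] [TopologicalSpace.SeparableSpace X] (T : X →L[𝕂] X),
      Dense {x : X | ∀ U ∈ 𝓝 x, ∃ N : ℕ, ∀ m : ℕ, ∃ n : ℕ,
          m ≤ n ∧ n ≤ m + N ∧ 1 ≤ n ∧ (T ^ n) x ∈ U} →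
      ∃ M : Submodule 𝕂 X, Dense (M : Set X) ∧
        ∀ x ∈ M, ∀ U ∈ 𝓝 x, ∃ N : ℕ, ∀ m : ℕ, ∃ n : ℕ,
          m ≤ n ∧ n ≤ m + N ∧ 1 ≤ n ∧ (T ^ n) x ∈ U := by
  intro 𝕂 _ X _ _ _ _ T h
  obtain ⟨M, h1, h2⟩ := joint_synd.lin T (h.mono (fun x hx U hU => by
    obtain ⟨N, hN⟩ := hx U hU
    refine ⟨N, fun m => ?_⟩
    obtain ⟨n, a, b, -, d⟩ := hN m
    exact ⟨n, by rwa [FunLike.coe_pow_eq_iterate] at d, a, b⟩))
  refine ⟨M, h1, fun x hx U hU => ?_⟩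
  obtain ⟨N, hN⟩ := h2 hx U hU
  refine ⟨N + 1, fun m => ?_⟩
  obtain ⟨n, d, a, b⟩ := hN (m + 1)
  exact ⟨n, by omega, by omega, by omega, by rwa [FunLike.coe_pow_eq_iterate]⟩

end Pool.Agent.Results.MP_3dc43d_an.Separable
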